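import Pool.Agent.V11233.LpR.Main

set_option autoImplicit false

open MeasureTheory
open scoped ENNReal

namespace Pool.Agent.Results.MP_bbed2d_pr.SlowRelaxation

open Pool.Agent.V11233.LpR

/-- For every `p > 2` the bound of Q1 fails for every constant `C`, already for graphs of
diameter at most `4`. -/
theorem result (p : ℝ) (hp : 2 < p) (C : ℝ) :
    ∃ (V : Type) (_ : Fintype V) (_ : DecidableEq V) (G : SimpleGraph V)
      (_ : DecidableRel G.Adj) (I : Finset V) (f₀ h : V → ℝ) (ε : ℝ),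
      G.Connected ∧ G.diam ≤ 4 ∧ I.Nonempty ∧ (∃ v, v ∉ I) ∧
      (∀ v, 0 ≤ f₀ v ∧ f₀ v ≤ 1) ∧ 0 < ε ∧ ε ≤ 1 / 2 ∧
      IsHarmExt p G I f₀ h ∧ (∀ h', IsHarmExt p G I f₀ h' → h' = h) ∧
      (∃ (Ω : Type) (_ : MeasurableSpace Ω) (μ : Measure Ω) (v : ℕ → Ω → V),
        IsProbabilityMeasure μ ∧ IsUniformSeq I μ v) ∧
      ∀ (Ω : Type) [MeasurableSpace Ω] (μ : Measure Ω) [IsProbabilityMeasure μ]
        (v : ℕ → Ω → V), IsUniformSeq I μ v →
        ENNReal.ofReal (C * (I.card : ℝ) * (G.edgeFinset.card : ℝ) * (G.diam : ℝ) *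
          Real.log (Fintype.card V / ε)) <
          ∫⁻ ω, hitTime p G f₀ h ε (fun t => v t ω) ∂μ := by
  obtain ⟨m, hm, t, ht, ht0, hlt⟩ := exists_m hp C
  have P := par_eta hp m
  have hm0 : 0 < m := by omega
  have hI : (inn m).Nonempty := by
    rw [← Finset.card_pos, card_inn]
    exact hm0
  refine ⟨Bool × Fin (m + 2), inferInstance, inferInstance, gr m, inferInstance, inn m,
    fz m (eta p m), hf m, eta p m / 4, connected_gr m, diam_gr m, hI, ⟨(true, 0), fun h => ?_⟩,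
    fun v => fz_mem P.pos.le P.small v, by linarith [P.pos], ?_, (harm hp m _).1,
    (harm hp m _).2, exists_uniformSeq _ hI, fun Ω _ μ _ v hv => ?_⟩
  · have := (mem_inn.1 h).1
    simp at this
  · have h5 : (1 : ℝ) / ((m : ℝ) + 1) ≤ 1 := by
      rw [div_le_one (by positivity)]
      have : (0 : ℝ) ≤ m := by positivity
      linarith
    linarith [P.small, P.pos]
  · refine lt_of_lt_of_le ?_ (lintegral_hit P P.quarter hm0 t ht μ v hv)
    have h1 : (t : ℝ≥0∞) / 2 = ENNReal.ofReal ((t : ℝ) / 2) := by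
      rw [ENNReal.ofReal_div_of_pos (by norm_num), ENNReal.ofReal_natCast]
      norm_num
    rw [h1]
    exact (ENNReal.ofReal_lt_ofReal_iff ht0).2 hlt

end Pool.Agent.Results.MP_bbed2d_pr.SlowRelaxation
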